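import Pool.Agent.H22.Crit5

namespace Pool.Agent.Results.MP_99d208_al.NotRadical

/-- A class of groups, given as a predicate. -/
abbrev Cls := (G : Type) → [Group G] → Prop

/-- A possibly empty formation of finite groups. -/
def Formation0 (F : Cls) : Prop :=
  (∀ (G : Type) [Group G], F G → Finite G) ∧
  (∀ (G H : Type) [Group G] [Group H], Nonempty (G ≃* H) → F G → F H) ∧
  (∀ (G : Type) [Group G] (N : Subgroup G) [N.Normal], F G → F (G ⧸ N)) ∧
  (∀ (G : Type) [Group G] [Finite G] (M N : Subgroup G) [M.Normal] [N.Normal],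
    F (G ⧸ M) → F (G ⧸ N) → F (G ⧸ (M ⊓ N)))

/-- The centraliser in `G` of the section `H / K`. -/
abbrev secCent {G : Type} [Group G] (H K : Subgroup G) [K.Normal] : Subgroup G :=
  (Subgroup.centralizer (H.map (QuotientGroup.mk' K) : Set (G ⧸ K))).comap (QuotientGroup.mk' K)

/-- Local class: defined by a formation function through the chief factors. -/
def Local (F : Cls) : Prop :=
  ∃ f : ℕ → Cls, (∀ p : ℕ, p.Prime → Formation0 (f p)) ∧
    ∀ (G : Type) [Group G] [Finite G], F G ↔ ∀ (H K : Subgroup G) [H.Normal] [K.Normal], K < H →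
      (∀ L : Subgroup G, L.Normal → K ≤ L → L ≤ H → L = K ∨ L = H) →
      ∀ p : ℕ, p.Prime → p ∣ K.relIndex H → f p (G ⧸ secCent H K)

/-- Nilpotent length at most `k`. -/
def NilLe : ℕ → (G : Type) → [Group G] → Prop
  | 0, G, _ => Subsingleton G
  | k + 1, G, _ => ∃ (N : Subgroup G) (_ : N.Normal), Group.IsNilpotent N ∧ NilLe k (G ⧸ N)

/-- The nilpotent length of a soluble group. -/
noncomputable def len (G : Type) [Group G] : ℕ := sInf {k | NilLe k G}

theorem result : ∃ F : Cls, Formation0 F ∧ F Unit ∧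
    (∀ (G : Type) [Group G], F G → Group.IsSolvable G) ∧ Local F ∧
    (∀ (G : Type) [Group G] (U : Subgroup G), F G → F U) ∧
    (∀ (G : Type) [Group G] [Finite G] [Group.IsSolvable G], ¬ F G →
      (∀ U : Subgroup G, U ≠ ⊤ → F U) → ∀ U : Subgroup G, U ≠ ⊤ → len U < len G) ∧
    ∃ (G : Type) (_ : Group G) (_ : Finite G) (M N : Subgroup G), M.Normal ∧ N.Normal ∧
      F M ∧ F N ∧ ¬ F (M ⊔ N : Subgroup G) := by
  have k : ∀ X : Cls, H22.FormLat.IsForm X → Formation0 X := fun X h =>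
    ⟨h.1, h.2.1, h.2.2.1, fun G _ _ M N _ _ a b =>
      ((H22.FormLat.Fq.mk M a).inf h (H22.FormLat.Fq.mk N b)).quot h _ le_rfl⟩
  have e : NilLe = H22.Comp.Nl := funext fun k => by
    induction k with
    | zero => rfl
    | succ k ih => funext G _; simp only [NilLe, H22.Comp.Nl, ih]
  have s : ∀ (G : Type) [Group G], H22.Comp.Fc G → Group.IsSolvable G := fun _ _ h => h.2.1
  refine ⟨H22.Comp.Fc, k _ H22.Comp.fc_form, H22.Comp.fc_unit, s, ⟨fun p G _ => H22.GLS.Gd H22.Comp.Fc p G,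
    fun p hp => have := Fact.mk hp; k _ (H22.GLS.gd_form H22.Comp.fc_form H22.Comp.fc_sat H22.Comp.fc_sub),
    fun G _ _ => H22.GLS.loc H22.Comp.fc_form H22.Comp.fc_sat H22.Comp.fc_sub s H22.Comp.fc_unit⟩,
    H22.Comp.fc_sub, fun G _ _ _ h m U u => ?_, H22.Comp.fc_ex⟩
  simp only [len, e]
  exact H22.Comp.fc_min h m U u

end Pool.Agent.Results.MP_99d208_al.NotRadical
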